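import Pool.Agent.U591.LV.Fin

/-!
# The extremal problem of Levin for positive harmonic functions vanishing on relatively dense sets

For a closed set `E` of real numbers meeting every interval of length `N` in measure at least `δ`,
with all its points regular, let `U_E` be the normalised symmetric positive harmonic function of the
complement of `E` in the plane.  We show that the supremum `C(N, δ)` of the values `U_E(x)` over
all such `E` and all real `x` equals `(N / π) log cot (π δ / (4 N))`, that it is attained by the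
periodic set (intervals of length `δ` centred at the multiples of `N`), and that it is attained at a
point only by the translates of this set.
-/

set_option autoImplicit false

open MeasureTheory Set Filter Topology InnerProductSpace

namespace Pool.Agent.Results.MP_cebbdc_an.LevinExtremalConstant

/-- The set `E` of real numbers, seen as a subset of the complex plane. -/
def emb (E : Set ℝ) : Set ℂ := (fun x : ℝ => (x : ℂ)) '' E

/-- Regularity of the point `x` of `E` for the Dirichlet problem in the complement of `E`, in the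
barrier form: near `x` there is a positive harmonic function on the complement of `E` which tends
to `0` at `x`. -/
def RegularPoint (E : Set ℝ) (x : ℝ) : Prop :=
  ∃ (w : ℂ → ℝ) (r : ℝ), 0 < r ∧
    (∀ z ∈ Metric.ball (x : ℂ) r \ emb E, HarmonicAt w z ∧ 0 < w z) ∧
    Tendsto w (𝓝[(emb E)ᶜ] (x : ℂ)) (𝓝 0)

/-- The family `E(N, δ)`: closed sets of real numbers which meet every interval of length `N` in a
set of Lebesgue measure at least `δ` and all of whose points are regular. -/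
structure Fam (N δ : ℝ) (E : Set ℝ) : Prop where
  closed : IsClosed E
  dense : ∀ a : ℝ, ENNReal.ofReal δ ≤ volume (E ∩ Icc a (a + N))
  regular : ∀ x ∈ E, RegularPoint E x

/-- `U` is the function `U_E`: continuous on the plane, zero on `E`, positive and harmonic off `E`,
symmetric under complex conjugation, and normalised by `U(iy) / y → 1` as `y → ∞`. -/
structure IsUE (E : Set ℝ) (U : ℂ → ℝ) : Prop where
  cont : Continuous U
  zero : ∀ z ∈ emb E, U z = 0
  pos : ∀ z ∉ emb E, 0 < U z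
  harm : ∀ z ∉ emb E, HarmonicAt U z
  symm : ∀ z : ℂ, U ((starRingEnd ℂ) z) = U z
  norm : Tendsto (fun y : ℝ => U ((y : ℂ) * Complex.I) / y) atTop (𝓝 1)

/-- The periodic set: closed intervals of length `δ` centred at the points `a + n N`. -/
def per (N δ a : ℝ) : Set ℝ := ⋃ n : ℤ, Icc (a + n * N - δ / 2) (a + n * N + δ / 2)

open Pool.Agent.U591.LV

theorem notMem_emb {E : Set ℝ} {z : ℂ} : z ∉ emb E ↔ (z.im ≠ 0 ∨ z.re ∉ E) := by
  constructor
  · intro h
    by_contra hc
    push Not at hc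
    apply h
    refine ⟨z.re, hc.2, ?_⟩
    apply Complex.ext
    · simp
    · simp [hc.1]
  · rintro h ⟨x, hx, rfl⟩
    rcases h with h | h
    · simp at h
    · simp at h; exact h hx

/-- the rescaled data -/
theorem scaled {N δ : ℝ} (hN : 0 < N) (hδ : 0 < δ) {E : Set ℝ}
    (hE : IsClosed E) (hd : ∀ a : ℝ, ENNReal.ofReal δ ≤ volume (E ∩ Icc a (a + N)))
    {U : ℂ → ℝ} (hU : IsUE E U) :
    Data (fun z => (1 / N) * U ((N : ℂ) * z)) ((fun x : ℝ => N * x) ⁻¹' E) ∧
    (∀ x y, (fun z => (1 / N) * U ((N : ℂ) * z)) (mkC x (-y)) = (fun z => (1 / N) * U ((N : ℂ) * z)) (mkC x y)) ∧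
    (∀ z : ℂ, (z.im ≠ 0 ∨ z.re ∉ (fun x : ℝ => N * x) ⁻¹' E) → 0 < (fun z => (1 / N) * U ((N : ℂ) * z)) z) ∧
    (∀ a : ℝ, ENNReal.ofReal (1 - 2 * ((1 - δ / N) / 2)) ≤ volume (((fun x : ℝ => N * x) ⁻¹' E) ∩ Icc a (a + 1))) ∧
    Tendsto (fun y : ℝ => (fun z => (1 / N) * U ((N : ℂ) * z)) (mkC 0 y) / y) atTop (𝓝 1) := by
  have hNC : (N : ℂ) ≠ 0 := by exact_mod_cast hN.ne'
  have hgood : ∀ z : ℂ, (z.im ≠ 0 ∨ z.re ∉ (fun x : ℝ => N * x) ⁻¹' E) → (N : ℂ) * z ∉ emb E := by
    intro z hz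
    rw [notMem_emb]
    rcases hz with h | h
    · left
      rw [Complex.im_ofReal_mul]
      exact mul_ne_zero hN.ne' h
    · right
      rw [Complex.re_ofReal_mul]
      exact h
  have hvol : ∀ a : ℝ, ENNReal.ofReal (1 - 2 * ((1 - δ / N) / 2)) ≤ volume (((fun x : ℝ => N * x) ⁻¹' E) ∩ Icc a (a + 1)) := by
    intro a
    have e1 : ((fun x : ℝ => N * x) ⁻¹' E) ∩ Icc a (a + 1)
        = (N * ·) ⁻¹' (E ∩ Icc (N * a) (N * a + N)) := by
      ext t
      constructor
      · rintro ⟨h1, h2, h3⟩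
        refine ⟨h1, ?_, ?_⟩
        · show N * a ≤ N * t
          exact mul_le_mul_of_nonneg_left h2 hN.le
        · show N * t ≤ N * a + N
          nlinarith
      · rintro ⟨h1, h2, h3⟩
        have h2' : N * a ≤ N * t := h2
        have h3' : N * t ≤ N * a + N := h3
        refine ⟨h1, le_of_mul_le_mul_left h2' hN, ?_⟩
        apply le_of_mul_le_mul_left _ hN
        linarith
    rw [e1, Real.volume_preimage_mul_left hN.ne', abs_of_pos (inv_pos.2 hN)]
    have e2 : 1 - 2 * ((1 - δ / N) / 2) = N⁻¹ * δ := by field_simp; ring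
    rw [e2, ENNReal.ofReal_mul (inv_nonneg.2 hN.le)]
    exact mul_le_mul_right (hd (N * a)) _
  refine ⟨?_, ?_, ?_, hvol, ?_⟩
  · refine ⟨?_, ?_, ?_, ?_, ?_, ?_⟩
    · exact continuous_const.mul (hU.cont.comp (by fun_prop))
    · intro z
      show 0 ≤ (1 / N) * U ((N : ℂ) * z)
      apply mul_nonneg (by positivity)
      by_cases h : (N : ℂ) * z ∈ emb E
      · rw [hU.zero _ h]
      · exact (hU.pos _ h).le
    · intro t ht
      show (1 / N) * U ((N : ℂ) * (t : ℂ)) = 0
      rw [hU.zero _ ⟨N * t, ht, by push_cast; rfl⟩, mul_zero]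
    · intro z hz
      have h1 := harm_scale (c := N) hN.ne' (z := z) (hU.harm _ (hgood z hz))
      have h2 := h1.const_smul (c := 1 / N)
      refine (harmonicAt_congr_nhds (Eventually.of_forall fun z => ?_)).1 h2
      simp
    · exact hE.preimage (by fun_prop)
    · intro a
      have h1 := hvol a
      have h2 : (((fun x : ℝ => N * x) ⁻¹' E) ∩ Icc a (a + 1)).Nonempty := by
        by_contra hc
        rw [Set.not_nonempty_iff_eq_empty] at hc
        rw [hc, measure_empty, nonpos_iff_eq_zero, ENNReal.ofReal_eq_zero] at h1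
        have : 0 < δ / N := by positivity
        linarith
      obtain ⟨e, he1, he2⟩ := h2
      exact ⟨e, he1, he2.1, he2.2⟩
  · intro x y
    show (1 / N) * U ((N : ℂ) * mkC x (-y)) = (1 / N) * U ((N : ℂ) * mkC x y)
    congr 1
    rw [← hU.symm ((N : ℂ) * mkC x y)]
    congr 1
    apply Complex.ext
    · simp
    · simp
  · intro z hz
    show 0 < (1 / N) * U ((N : ℂ) * z)
    have := hU.pos _ (hgood z hz)
    positivity
  · have h1 : Tendsto (fun y : ℝ => N * y) atTop atTop := Tendsto.const_mul_atTop hN tendsto_id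
    have h2 := hU.norm.comp h1
    refine h2.congr fun y => ?_
    show U (((N * y : ℝ) : ℂ) * Complex.I) / (N * y) = (1 / N) * U ((N : ℂ) * mkC 0 y) / y
    have e : ((N * y : ℝ) : ℂ) * Complex.I = (N : ℂ) * mkC 0 y := by
      unfold mkC; push_cast; ring
    rw [e]
    field_simp

/-- the value of the extremal function -/
theorem value_eq {N δ : ℝ} (hN : 0 < N) (hδ : 0 < δ) (hδN : δ < N) :
    N * Ut (Real.cos (Real.pi * ((1 - δ / N) / 2))) 0
      = N / Real.pi * Real.log (Real.cot (Real.pi * δ / (4 * N))) := by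
  rw [Ut_value (by positivity) (by rw [div_lt_one hN]; exact hδN)]
  have e : Real.pi * (δ / N) / 4 = Real.pi * δ / (4 * N) := by field_simp
  rw [e]
  ring

theorem Et_mem {N δ : ℝ} (hN : 0 < N) (hδ : 0 < δ) (hδN : δ < N) (a x : ℝ) :
    x ∈ per N δ a ↔ (x - a) / N + 1 / 2 ∈ Et (Real.cos (Real.pi * ((1 - δ / N) / 2))) := by
  have h1 : δ / N < 1 := by rw [div_lt_one hN]; exact hδN
  have h0 : 0 < δ / N := by positivity
  rw [Et_eq (by linarith) (by linarith)]
  unfold per
  rw [mem_iUnion, mem_iUnion]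
  have hb : ∀ n : ℤ, x ∈ Icc (a + n * N - δ / 2) (a + n * N + δ / 2) ↔
      (x - a) / N + 1 / 2 ∈ Icc ((n : ℝ) + (1 - δ / N) / 2) ((n : ℝ) + 1 - (1 - δ / N) / 2) := by
    intro n
    rw [mem_Icc, mem_Icc]
    have e1 : (x - a) / N + 1 / 2 - ((n : ℝ) + (1 - δ / N) / 2) = (x - (a + n * N - δ / 2)) / N := by
      field_simp; ring
    have e2 : ((n : ℝ) + 1 - (1 - δ / N) / 2) - ((x - a) / N + 1 / 2) = ((a + n * N + δ / 2) - x) / N := by
      field_simp; ring
    constructor
    · rintro ⟨h2, h3⟩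
      have h4 : 0 ≤ (x - (a + n * N - δ / 2)) / N := div_nonneg (by linarith) hN.le
      have h5 : 0 ≤ ((a + n * N + δ / 2) - x) / N := div_nonneg (by linarith) hN.le
      rw [← e1] at h4
      rw [← e2] at h5
      exact ⟨by linarith, by linarith⟩
    · rintro ⟨h2, h3⟩
      have h4 : 0 ≤ (x - (a + n * N - δ / 2)) / N := by rw [← e1]; linarith
      have h5 : 0 ≤ ((a + n * N + δ / 2) - x) / N := by rw [← e2]; linarith
      have h6 := (div_nonneg_iff.1 h4).resolve_right (by intro h; linarith [h.2])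
      have h7 := (div_nonneg_iff.1 h5).resolve_right (by intro h; linarith [h.2])
      exact ⟨by linarith [h6.1], by linarith [h7.1]⟩
  exact exists_congr hb

/-- every point of a set with a function `U_E` is regular -/
theorem IsUE.regular {E : Set ℝ} {U : ℂ → ℝ} (hU : IsUE E U) (x : ℝ) (hx : x ∈ E) :
    RegularPoint E x := by
  refine ⟨U, 1, one_pos, fun z hz => ⟨hU.harm z hz.2, hU.pos z hz.2⟩, ?_⟩
  have h1 : Tendsto U (𝓝 (x : ℂ)) (𝓝 (U (x : ℂ))) := hU.cont.continuousAt
  rw [hU.zero _ ⟨x, hx, rfl⟩] at h1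
  exact h1.mono_left nhdsWithin_le_nhds

/-- the extremal function of the periodic set -/
theorem per_UE {N δ : ℝ} (hN : 0 < N) (hδ : 0 < δ) (hδN : δ < N) :
    IsUE (per N δ 0) (fun z => N * Ut (Real.cos (Real.pi * ((1 - δ / N) / 2)))
      (((1 / N : ℝ) : ℂ) * z + ((1 / 2 : ℝ) : ℂ))) := by
  have h1 : δ / N < 1 := by rw [div_lt_one hN]; exact hδN
  have h0 : 0 < δ / N := by positivity
  set g := (1 - δ / N) / 2 with hg
  have hg0 : 0 < g := by linarith
  have hg1 : g < 1 / 2 := by linarith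
  set b := Real.cos (Real.pi * g) with hb
  have hb0 : 0 < b := bpos hg0 hg1
  have hb1 : b ≤ 1 := Real.cos_le_one _
  have D := Ut_data hb0 hb1
  have hmk : ∀ z : ℂ, ((1 / N : ℝ) : ℂ) * z + ((1 / 2 : ℝ) : ℂ) = mkC (z.re / N + 1 / 2) (z.im / N) := by
    intro z
    apply Complex.ext
    · rw [mkC_re, Complex.add_re, Complex.re_ofReal_mul, Complex.ofReal_re]; ring
    · rw [mkC_im, Complex.add_im, Complex.im_ofReal_mul, Complex.ofReal_im]; ring
  have hmem : ∀ x : ℝ, x ∈ per N δ 0 ↔ x / N + 1 / 2 ∈ Et b := by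
    intro x
    rw [Et_mem hN hδ hδN, sub_zero]
  have hgood : ∀ z : ℂ, z ∉ emb (per N δ 0) → (((1 / N : ℝ) : ℂ) * z + ((1 / 2 : ℝ) : ℂ)).im ≠ 0 ∨
      (((1 / N : ℝ) : ℂ) * z + ((1 / 2 : ℝ) : ℂ)).re ∉ Et b := by
    intro z hz
    rw [notMem_emb] at hz
    rw [hmk, mkC_im, mkC_re]
    rcases hz with h | h
    · left; exact div_ne_zero h hN.ne'
    · right; rwa [← hmem]
  refine ⟨?_, ?_, ?_, ?_, ?_, ?_⟩
  · exact continuous_const.mul (Ut_cont.comp (by fun_prop))
  · rintro _ ⟨x, hx, rfl⟩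
    show N * Ut b (((1 / N : ℝ) : ℂ) * (x : ℂ) + ((1 / 2 : ℝ) : ℂ)) = 0
    rw [hmk, Complex.ofReal_re, Complex.ofReal_im, zero_div]
    have : Ut b (mkC (x / N + 1 / 2) 0) = 0 := by
      rw [Ut_zero_iff hb0 hb1]; exact ⟨rfl, (hmem x).1 hx⟩
    rw [this, mul_zero]
  · intro z hz
    show 0 < N * Ut b (((1 / N : ℝ) : ℂ) * z + ((1 / 2 : ℝ) : ℂ))
    apply mul_pos hN
    have h2 := hgood z hz
    rw [hmk, mkC_im, mkC_re] at h2
    rw [hmk]
    apply lt_of_le_of_ne (Ut_nn b _)
    intro h3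
    have h4 := (Ut_zero_iff hb0 hb1 _ _).1 h3.symm
    rcases h2 with h2 | h2
    · exact h2 h4.1
    · exact h2 h4.2
  · intro z hz
    have h2 := D.harm _ (hgood z hz)
    have h3 : HarmonicAt (fun w => Ut b (w + ((1 / 2 : ℝ) : ℂ))) (((1 / N : ℝ) : ℂ) * z) := harm_shift h2
    have h4 := harm_scale (c := 1 / N) (by positivity) h3
    have h5 := h4.const_smul (c := N)
    refine (harmonicAt_congr_nhds (Eventually.of_forall fun z => ?_)).1 h5
    simp
  · intro z
    show N * Ut b (((1 / N : ℝ) : ℂ) * (starRingEnd ℂ) z + ((1 / 2 : ℝ) : ℂ))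
      = N * Ut b (((1 / N : ℝ) : ℂ) * z + ((1 / 2 : ℝ) : ℂ))
    rw [hmk, hmk, Complex.conj_re, Complex.conj_im, neg_div, Ut_symm]
  · have h2 : Tendsto (fun y : ℝ => y / N) atTop atTop := tendsto_id.atTop_div_const hN
    have h3 := (Ut_lim hb0 hb1 (1 / 2)).comp h2
    refine h3.congr' ?_
    filter_upwards [eventually_gt_atTop 0] with y hy
    show Ut b (mkC (1 / 2) (y / N)) / (y / N)
      = N * Ut b (((1 / N : ℝ) : ℂ) * ((y : ℂ) * Complex.I) + ((1 / 2 : ℝ) : ℂ)) / y
    rw [hmk]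
    have e1 : ((y : ℂ) * Complex.I).re = 0 := by simp
    have e2 : ((y : ℂ) * Complex.I).im = y := by simp
    rw [e1, e2, zero_div, zero_add]
    field_simp

theorem per_fam {N δ : ℝ} (hN : 0 < N) (hδ : 0 < δ) (hδN : δ < N) : Fam N δ (per N δ 0) := by
  have h1 : δ / N < 1 := by rw [div_lt_one hN]; exact hδN
  have h0 : 0 < δ / N := by positivity
  have hUE := per_UE hN hδ hδN
  set g := (1 - δ / N) / 2 with hg
  have hg0 : 0 < g := by linarith
  have hg1 : g < 1 / 2 := by linarith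
  set b := Real.cos (Real.pi * g) with hb
  have hmem : per N δ 0 = (fun x : ℝ => x / N + 1 / 2) ⁻¹' Et b := by
    ext x
    rw [Et_mem hN hδ hδN, sub_zero]
    rfl
  refine ⟨?_, ?_, fun x hx => hUE.regular x hx⟩
  · rw [hmem]
    exact (Et_closed b).preimage (by fun_prop)
  · intro a
    have h2 := Et_vol hg0 hg1 (a / N + 1 / 2)
    have hNi : (N⁻¹ : ℝ) ≠ 0 := inv_ne_zero hN.ne'
    have e1 : per N δ 0 ∩ Icc a (a + N) = (N⁻¹ * ·) ⁻¹' ((fun x : ℝ => x + 1 / 2) ⁻¹'
        (Et b ∩ Icc (a / N + 1 / 2) (a / N + 1 / 2 + 1))) := by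
      rw [hmem]
      ext t
      have k1 : N⁻¹ * t = t / N := by ring
      constructor
      · rintro ⟨k2, k3, k4⟩
        have k2' : t / N + 1 / 2 ∈ Et b := k2
        show N⁻¹ * t + 1 / 2 ∈ Et b ∩ Icc (a / N + 1 / 2) (a / N + 1 / 2 + 1)
        rw [k1]
        refine ⟨k2', ?_, ?_⟩
        · have : a / N ≤ t / N := div_le_div_of_nonneg_right k3 hN.le
          linarith
        · have : t / N ≤ (a + N) / N := div_le_div_of_nonneg_right k4 hN.le
          rw [add_div, div_self hN.ne'] at this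
          linarith
      · intro k
        have k' : N⁻¹ * t + 1 / 2 ∈ Et b ∩ Icc (a / N + 1 / 2) (a / N + 1 / 2 + 1) := k
        rw [k1] at k'
        obtain ⟨k2, k3, k4⟩ := k'
        refine ⟨k2, ?_, ?_⟩
        · have : a / N ≤ t / N := by linarith
          exact (div_le_div_iff_of_pos_right hN).1 this
        · have : t / N ≤ (a + N) / N := by
            rw [add_div, div_self hN.ne']; linarith
          exact (div_le_div_iff_of_pos_right hN).1 this
    rw [e1, Real.volume_preimage_mul_left hNi, inv_inv, abs_of_pos hN, measure_preimage_add_right]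
    have e2 : δ = N * (1 - 2 * g) := by rw [hg]; field_simp; ring
    conv_lhs => rw [e2]
    rw [ENNReal.ofReal_mul hN.le]
    exact mul_le_mul_right h2 _

/-- **The extremal problem of Levin.** Let `0 < δ < N`.  The number
`(N / π) log cot (π δ / (4 N))` is the greatest value `U_E(x)` over all sets `E` in `E(N, δ)` and all
real `x`, so it is `C(N, δ)`; the periodic set `per N δ 0` belongs to `E(N, δ)` and its function
takes this value at `N / 2`; and a set of the family whose function takes this value at some real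
point is a translate of the periodic set. -/
theorem result (N δ : ℝ) (hδ : 0 < δ) (hδN : δ < N) :
    IsGreatest {v : ℝ | ∃ E : Set ℝ, Fam N δ E ∧ ∃ U : ℂ → ℝ, IsUE E U ∧ ∃ x : ℝ, U (x : ℂ) = v}
      (N / Real.pi * Real.log (Real.cot (Real.pi * δ / (4 * N)))) ∧
    (Fam N δ (per N δ 0) ∧ ∃ U : ℂ → ℝ, IsUE (per N δ 0) U ∧
      U ((N / 2 : ℝ) : ℂ) = N / Real.pi * Real.log (Real.cot (Real.pi * δ / (4 * N)))) ∧
    (∀ E : Set ℝ, Fam N δ E → ∀ U : ℂ → ℝ, IsUE E U → ∀ x : ℝ,
      U (x : ℂ) = N / Real.pi * Real.log (Real.cot (Real.pi * δ / (4 * N))) →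
      ∃ a : ℝ, E = per N δ a) := by
  have hN : 0 < N := hδ.trans hδN
  have h1 : δ / N < 1 := by rw [div_lt_one hN]; exact hδN
  have h0 : 0 < δ / N := by positivity
  have hval := value_eq hN hδ hδN
  have hUE := per_UE hN hδ hδN
  have hfam := per_fam hN hδ hδN
  set g := (1 - δ / N) / 2 with hg
  have hg0 : 0 < g := by linarith
  have hg1 : g < 1 / 2 := by linarith
  set b := Real.cos (Real.pi * g) with hb
  have hat : (fun z => N * Ut b (((1 / N : ℝ) : ℂ) * z + ((1 / 2 : ℝ) : ℂ))) ((N / 2 : ℝ) : ℂ)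
      = N / Real.pi * Real.log (Real.cot (Real.pi * δ / (4 * N))) := by
    rw [← hval]
    show N * Ut b (((1 / N : ℝ) : ℂ) * ((N / 2 : ℝ) : ℂ) + ((1 / 2 : ℝ) : ℂ)) = N * Ut b 0
    have e : ((1 / N : ℝ) : ℂ) * ((N / 2 : ℝ) : ℂ) + ((1 / 2 : ℝ) : ℂ) = mkC (0 + 1) 0 := by
      rw [mkC_zero, ← Complex.ofReal_mul, ← Complex.ofReal_add]
      congr 1
      field_simp
      norm_num
    rw [e, Ut_per, mkC_zero, Complex.ofReal_zero]
  refine ⟨⟨⟨per N δ 0, hfam, _, hUE, N / 2, hat⟩, ?_⟩, ⟨hfam, _, hUE, hat⟩, ?_⟩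
  · rintro v ⟨E, hE, U, hU, x, rfl⟩
    obtain ⟨D, hs, hp, hv, hl⟩ := scaled hN hδ hE.closed hE.dense hU
    have h2 := bound_one D hs hg0 hg1 hv hl (x / N)
    have h3 : (1 / N) * U ((N : ℂ) * ((x / N : ℝ) : ℂ)) ≤ Ut b 0 := h2
    have e : (N : ℂ) * ((x / N : ℝ) : ℂ) = (x : ℂ) := by
      rw [← Complex.ofReal_mul]; congr 1; field_simp
    rw [e] at h3
    rw [← hval]
    have h4 : N * ((1 / N) * U (x : ℂ)) ≤ N * Ut b 0 := mul_le_mul_of_nonneg_left h3 hN.le
    have e2 : N * ((1 / N) * U (x : ℂ)) = U (x : ℂ) := by field_simp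
    rwa [e2] at h4
  · intro E hE U hU x hx
    obtain ⟨D, hs, hp, hv, hl⟩ := scaled hN hδ hE.closed hE.dense hU
    have e : (N : ℂ) * ((x / N : ℝ) : ℂ) = (x : ℂ) := by
      rw [← Complex.ofReal_mul]; congr 1; field_simp
    have h3 : (fun z => (1 / N) * U ((N : ℂ) * z)) ((x / N : ℝ) : ℂ) = Ut b 0 := by
      show (1 / N) * U ((N : ℂ) * ((x / N : ℝ) : ℂ)) = Ut b 0
      rw [e, hx, ← hval]
      field_simp
    have h4 := eq_one D hs hp hg0 hg1 hv hl (x / N) h3
    refine ⟨x + N / 2, ?_⟩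
    ext t
    rw [Et_mem hN hδ hδN, ← hg, ← hb, ← h4]
    show t ∈ E ↔ N * ((t - (x + N / 2)) / N + 1 / 2 + x / N) ∈ E
    have e3 : N * ((t - (x + N / 2)) / N + 1 / 2 + x / N) = t := by field_simp; ring
    rw [e3]

end Pool.Agent.Results.MP_cebbdc_an.LevinExtremalConstant
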